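import Pool.Agent.MWV.Stmts

/-!
# Squad MWV, row CLN (MP_23468a_al): insertion of copies of `w`
-/

set_option autoImplicit false

namespace Pool.Agent.MWV.H77

open Pool.Agent.Helper14_MV Pool.Agent.Helper2_MV Pool.Agent.MWV

theorem ib_refl (w : List ℕ) : ∀ u : List ℕ, Ib w u u
  | [] => Ib.nil
  | a :: u => Ib.cons a (ib_refl w u)

theorem ib_one (w : List ℕ) : ∀ a b : List ℕ, Ib w (a ++ b) (a ++ (w ++ b))
  | [], b => Ib.ins (ib_refl w b)
  | c :: a, b => Ib.cons c (ib_one w a b)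

theorem gd_ext {N : ℕ} {S : List ℕ → List ℕ → Prop} {k : ℕ} {p q p' q' : List ℕ} {h : ℕ}
    {e1 ν e2 : List ℕ} (hp : ∀ c ∈ p, c ∈ p') (hq : ∀ c ∈ q, c ∈ q') (he1 : ∀ c ∈ e1, c % 3 = 0)
    (he2 : ∀ c ∈ e2, c % 3 = 0) (hG : Gd N S k p q h ν) :
    Gd N S k p' q' h (e1 ++ (ν ++ e2)) := by
  have hl : ∀ e : List ℕ, (∀ c ∈ e, c % 3 = 0) → lgt e = [] := by
    intro e he
    unfold lgt
    rw [List.filter_eq_nil_iff]
    intro a ha
    simp [he a ha]
  have hmem : ∀ c ∈ e1 ++ (ν ++ e2), c % 3 ≠ 0 → c ∈ ν := by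
    intro c hc h0
    rcases List.mem_append.1 hc with hc | hc
    · exact absurd (he1 c hc) h0
    · rcases List.mem_append.1 hc with hc | hc
      · exact hc
      · exact absurd (he2 c hc) h0
  rcases hG with ⟨h1, h2, h3⟩ | h1 | h1 | ⟨ν1, ρ, ν2, z, z', h1, h2, h3, h4, h5, h6, h7⟩
  · have e : lgt (e1 ++ (ν ++ e2)) = lgt ν := by
      have e' : lgt (e1 ++ (ν ++ e2)) = lgt e1 ++ (lgt ν ++ lgt e2) := by
        unfold lgt
        rw [List.filter_append, List.filter_append]
      rw [e', hl e1 he1, hl e2 he2]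
      simp
    refine Or.inl ⟨by rw [e]; exact h1, by rw [e]; exact h2, ?_⟩
    intro c hc h0
    rcases h3 c (hmem c hc h0) h0 with h4 | h4
    · exact Or.inl (hp c h4)
    · exact Or.inr (hq c h4)
  · refine Or.inr (Or.inl ?_)
    intro c hc h0
    rcases h1 c (hmem c hc h0) h0 with ⟨h4, h5⟩ | ⟨h4, h5⟩
    · exact Or.inl ⟨hq c h4, h5⟩
    · exact Or.inr ⟨hp c h4, h5⟩
  · refine Or.inr (Or.inr (Or.inl ?_))
    intro c hc h0
    rcases h1 c (hmem c hc h0) h0 with ⟨h4, h5⟩ | ⟨h4, h5⟩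
    · exact Or.inl ⟨hq c h4, h5⟩
    · exact Or.inr ⟨hp c h4, h5⟩
  · refine Or.inr (Or.inr (Or.inr ⟨e1 ++ ν1, ρ, ν2 ++ e2, z, z', ?_, h2, h3, h4, h5, ?_, ?_⟩))
    · rw [h1]
      simp
    · intro c hc h0
      have hc' : c ∈ ν1 ++ [z] := by
        rw [List.append_assoc] at hc
        rcases List.mem_append.1 hc with hc | hc
        · exact absurd (he1 c hc) h0
        · exact hc
      rcases h6 c hc' h0 with ⟨h8, h9⟩ | ⟨h8, h9⟩
      · exact Or.inl ⟨hq c h8, h9⟩
      · exact Or.inr ⟨hp c h8, h9⟩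
    · intro c hc h0
      have hc' : c ∈ z' :: ν2 := by
        have hc2 : c ∈ (z' :: ν2) ++ e2 := hc
        rcases List.mem_append.1 hc2 with hc2 | hc2
        · exact hc2
        · exact absurd (he2 c hc2) h0
      rcases h7 c hc' h0 with ⟨h8, h9⟩ | ⟨h8, h9⟩
      · exact Or.inl ⟨hq c h8, h9⟩
      · exact Or.inr ⟨hp c h8, h9⟩

theorem pi_cnt (N : ℕ) (E : List ℕ) (a : ℕ) : (E.flatMap (X N)).count a % N = 0 := by
  induction E with
  | nil => simp
  | cons h E ih =>
    rw [List.flatMap_cons, List.count_append]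
    have e : (X N h).count a % N = 0 := by
      unfold X
      rw [List.count_replicate]
      split
      · exact Nat.mod_self N
      · exact Nat.zero_mod N
    rw [Nat.add_mod, e, ih]
    simp

theorem pi_mem {N : ℕ} {E : List ℕ} {a : ℕ} (h : a ∈ E.flatMap (X N)) : a ∈ E := by
  rw [List.mem_flatMap] at h
  obtain ⟨b, hb, hab⟩ := h
  rw [(List.mem_replicate.1 hab).2]
  exact hb

theorem cln (hHVY : HvyStmt) (hGDI : GdiStmt) (hGST : GstStmt) : ClnStmt := by
  intro N S hS k hF p q w0 w u v hw0 hw hwc hib hG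
  have hwh : ∀ a ∈ w, a % 3 = 0 := fun a ha => hw0 a (hw a ha)
  have ctx : ∀ (P Q : List ℕ) {x y : List ℕ}, S x y → S (P ++ (x ++ Q)) (P ++ (y ++ Q)) :=
    fun P Q x y hxy => hS.app (hS.refl P) (hS.app hxy (hS.refl Q))
  -- insertion of powers
  have step1 : ∀ (a b : List ℕ), (∀ h ∈ w, Gd N S k p q h (a ++ b)) → ∀ E : List ℕ,
      (∀ h ∈ E, h ∈ w) → S (p ++ (w0 ++ (a ++ (b ++ (w0 ++ q)))))
        (p ++ (w0 ++ (a ++ (E.flatMap (X N) ++ (b ++ (w0 ++ q)))))) := by
    intro a b hab E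
    induction E with
    | nil =>
      intro _
      exact hS.refl _
    | cons h E ih =>
      intro hE
      have ih' := ih (fun x hx => hE x (List.mem_cons_of_mem _ hx))
      refine hS.trans ih' ?_
      have hh : h ∈ w := hE h (by simp)
      obtain ⟨x1, x2, hx⟩ := List.append_of_mem (hw h hh)
      have g1 : Gd N S k p q h (a ++ (E.flatMap (X N) ++ b)) :=
        (hGST N S k p q h (E.flatMap (X N)) (a ++ b) _ (ib_one _ a b) (by
          intro c hc
          exact hwh c (hE c (List.mem_cons_of_mem _ (pi_mem hc)))) (pi_cnt N E)).1 (hab h hh)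
      have g2 : Gd N S k (p ++ x1) (x2 ++ q) h (x2 ++ ((a ++ (E.flatMap (X N) ++ b)) ++ x1)) :=
        gd_ext (fun c hc => List.mem_append_left _ hc) (fun c hc => List.mem_append_right _ hc)
          (fun c hc => hw0 c (by rw [hx]; simp [hc])) (fun c hc => hw0 c (by rw [hx]; simp [hc])) g1
      have g3 : Gd N S k (p ++ x1) (x2 ++ q) h ((x2 ++ a) ++ (E.flatMap (X N) ++ (b ++ x1))) := by
        have e : (x2 ++ a) ++ (E.flatMap (X N) ++ (b ++ x1)) =
            x2 ++ ((a ++ (E.flatMap (X N) ++ b)) ++ x1) := by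
          simp only [List.append_assoc]
        rw [e]
        exact g2
      have r := hGDI N S hS k hF (p ++ x1) (x2 ++ q) (x2 ++ a) (E.flatMap (X N) ++ (b ++ x1)) h
        (hwh h hh) g3
      have e1 : (p ++ x1) ++ h :: ((x2 ++ a) ++ ((E.flatMap (X N) ++ (b ++ x1)) ++
          h :: (x2 ++ q))) = p ++ (w0 ++ (a ++ (E.flatMap (X N) ++ (b ++ (w0 ++ q))))) := by
        rw [hx]
        simp only [List.append_assoc, List.cons_append]
      have e2 : (p ++ x1) ++ h :: ((x2 ++ a) ++ (X N h ++ ((E.flatMap (X N) ++ (b ++ x1)) ++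
          h :: (x2 ++ q)))) =
            p ++ (w0 ++ (a ++ ((h :: E).flatMap (X N) ++ (b ++ (w0 ++ q))))) := by
        rw [hx, List.flatMap_cons]
        simp only [List.append_assoc, List.cons_append]
      rw [e1, e2] at r
      exact r
  -- one insertion of `w`
  have hwPi : S (w.dedup.flatMap (X N)) w := by
    refine hHVY N S hS _ _ ?_ hwh ?_ ?_
    · intro a ha
      exact hwh a (List.mem_dedup.1 (pi_mem ha))
    · intro a
      constructor
      · intro ha
        exact List.mem_dedup.1 (pi_mem ha)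
      · intro ha
        rw [List.mem_flatMap]
        refine ⟨a, List.mem_dedup.2 ha, ?_⟩
        refine List.mem_replicate.2 ⟨?_, rfl⟩
        have := hS.pos
        omega
    · intro a
      rw [pi_cnt, hwc]
  have step2 : ∀ (a b : List ℕ), (∀ h ∈ w, Gd N S k p q h (a ++ b)) →
      S (p ++ (w0 ++ (a ++ (b ++ (w0 ++ q))))) (p ++ (w0 ++ (a ++ (w ++ (b ++ (w0 ++ q)))))) := by
    intro a b hab
    refine hS.trans (step1 a b hab w.dedup (fun h hh => List.mem_dedup.1 hh)) ?_
    have r := ctx (p ++ (w0 ++ a)) (b ++ (w0 ++ q)) hwPi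
    simp only [List.append_assoc] at r
    exact r
  -- induction
  have main : ∀ {u v : List ℕ}, Ib w u v → ∀ t : List ℕ, (∀ h ∈ w, Gd N S k p q h (t ++ u)) →
      S (p ++ (w0 ++ (t ++ (u ++ (w0 ++ q))))) (p ++ (w0 ++ (t ++ (v ++ (w0 ++ q))))) := by
    intro u v huv
    induction huv with
    | nil =>
      intro t _
      exact hS.refl _
    | @cons a u v _ ih =>
      intro t ht
      have e1 : ∀ x : List ℕ, t ++ ((a :: x) ++ (w0 ++ q)) = (t ++ [a]) ++ (x ++ (w0 ++ q)) := by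
        intro x
        simp
      rw [e1, e1]
      refine ih (t ++ [a]) ?_
      intro h hh
      have e2 : t ++ [a] ++ u = t ++ a :: u := by simp
      rw [e2]
      exact ht h hh
    | @ins u v _ ih =>
      intro t ht
      refine hS.trans (step2 t u ht) ?_
      have e1 : ∀ x : List ℕ, t ++ (w ++ (x ++ (w0 ++ q))) = (t ++ w) ++ (x ++ (w0 ++ q)) := by
        intro x
        simp
      have e3 : t ++ ((w ++ v) ++ (w0 ++ q)) = (t ++ w) ++ (v ++ (w0 ++ q)) := by
        simp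
      rw [e1, e3]
      refine ih (t ++ w) ?_
      intro h hh
      have e2 : t ++ w ++ u = t ++ (w ++ u) := by simp
      rw [e2]
      exact (hGST N S k p q h w (t ++ u) _ (ib_one w t u) hwh hwc).1 (ht h hh)
  exact main hib [] hG

end Pool.Agent.MWV.H77
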